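import Mathlib

/-!
# Hyperelliptic Lefschetz fibrations and pencils: the homological data

Let `M` be a closed simply connected symplectic 4-manifold and let a hyperelliptic Lefschetz pencil
of genus `g ≥ 2` with `b ≥ 1` base points on `M` be given.  Blowing up the base points gives
`X = M # b (-ℂP²)` with a hyperelliptic Lefschetz fibration over the sphere and `b` disjoint
exceptional sections.  `HypFib` records the data of a hyperelliptic Lefschetz fibration of a closed
simply connected manifold over the sphere, `HypPencil` the data of a pencil on `M` if `M` is not a
rational surface: the classes in `H²(X; ℤ)`, the action of the hyperelliptic involution, and what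
classical theorems give for them.
-/

namespace Pool.Agent.H53.HP

open scoped BigOperators

/-- The homological data of a hyperelliptic Lefschetz fibration `X → S²` of a closed simply
connected 4-manifold `X`, with one critical point in each singular fibre. -/
structure HypFib where
  /-- `H²(X; ℤ)`, a free abelian group of finite rank -/
  H : Type
  [group : AddCommGroup H]
  [free : Module.Free ℤ H]
  [finite : Module.Finite ℤ H]
  /-- the intersection form of `X` -/
  form : LinearMap.BilinForm ℤ H
  symm : ∀ x y, form x y = form y x
  /-- `b⁺(X)` -/
  bPlus : ℕ
  /-- `b⁻(X)` -/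
  bMinus : ℕ
  rank_eq : Module.finrank ℤ H = bPlus + bMinus
  /-- at most `b⁺(X)` pairwise orthogonal classes of positive square -/
  pos_le : ∀ (m : ℕ) (v : Fin m → H), (∀ i, 0 < form (v i) (v i)) →
    (∀ i j, i ≠ j → form (v i) (v j) = 0) → m ≤ bPlus
  /-- at most `b⁻(X)` pairwise orthogonal classes of negative square -/
  neg_le : ∀ (m : ℕ) (v : Fin m → H), (∀ i, form (v i) (v i) < 0) →
    (∀ i j, i ≠ j → form (v i) (v j) = 0) → m ≤ bMinus
  /-- the genus of the fibres -/
  genus : ℕ
  two_le_genus : 2 ≤ genus
  /-- the number of irreducible singular fibres (nonseparating vanishing cycles) -/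
  irr : ℕ
  /-- the number of reducible singular fibres (separating vanishing cycles) -/
  red : ℕ
  /-- the class of a fibre -/
  F : H
  /-- one of the two components of each reducible fibre, the other one is `F - e p` -/
  e : Fin red → H
  /-- the genus of the component `e p`; the other component has genus `genus - gen p` -/
  gen : Fin red → ℕ
  gen_pos : ∀ p, 1 ≤ gen p
  gen_lt : ∀ p, gen p < genus
  F_F : form F F = 0
  F_dual : ∃ x, form x F ≠ 0
  e_F : ∀ p, form (e p) F = 0
  e_e : ∀ p, form (e p) (e p) = -1
  e_e' : ∀ p r, p ≠ r → form (e p) (e r) = 0
  /-- the Euler characteristic of `X` counted by the singular fibres -/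
  euler : (2 : ℤ) + bPlus + bMinus = 4 - 4 * genus + irr + red
  /-- Endo's formula for the signature of a hyperelliptic Lefschetz fibration -/
  endo : (2 * (genus : ℤ) + 1) * ((bPlus : ℤ) - bMinus) = -((genus : ℤ) + 1) * irr +
    ∑ p, (4 * (gen p : ℤ) * ((genus : ℤ) - gen p) - (2 * (genus : ℤ) + 1))

attribute [instance] HypFib.group HypFib.free HypFib.finite

/-- The homological data of a hyperelliptic Lefschetz pencil on a closed simply connected
symplectic 4-manifold `M` which is not rational; `X` is the blow-up of `M` at the base points. -/
structure HypPencil extends HypFib where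
  /-- the number of base points of the pencil -/
  base : ℕ
  base_pos : 1 ≤ base
  /-- the canonical class of `X` -/
  K : H
  /-- the exceptional sections over the base points -/
  E : Fin base → H
  /-- adjunction for a fibre -/
  K_F : form K F = 2 * (genus : ℤ) - 2
  E_F : ∀ j, form (E j) F = 1
  /-- adjunction for the exceptional spheres -/
  K_E : ∀ j, form K (E j) = -1
  E_E : ∀ j, form (E j) (E j) = -1
  E_E' : ∀ j k, j ≠ k → form (E j) (E k) = 0
  /-- adjunction for the components of the reducible fibres -/
  K_e : ∀ p, form K (e p) = 2 * (gen p : ℤ) - 1
  /-- a section meets exactly one component of each reducible fibre, once -/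
  E_e : ∀ j p, form (E j) (e p) = 0 ∨ form (E j) (e p) = 1
  /-- `K² = 2χ + 3σ` -/
  K_K : form K K = 2 * ((2 : ℤ) + bPlus + bMinus) + 3 * ((bPlus : ℤ) - bMinus)
  /-- the action of the hyperelliptic involution of `X` -/
  inv : H →ₗ[ℤ] H
  inv_inv : ∀ x, inv (inv x) = x
  inv_form : ∀ x y, form (inv x) (inv y) = form x y
  inv_F : inv F = F
  inv_K : inv K = K
  inv_e : ∀ p, inv (e p) = e p
  /-- the quotient of `X` by the involution is a ruled rational surface with `red` reducible
  fibres, so it has second Betti number `2 + red`: an invariant class which is orthogonal to `F`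
  and to all `e p` is a rational multiple of `F` -/
  inv_span : ∀ x, inv x = x → form x F = 0 → (∀ p, form x (e p) = 0) →
    ∃ c a : ℤ, c ≠ 0 ∧ c • x = a • F
  /-- `M` is not rational, so two distinct exceptional classes of `X` are orthogonal -/
  inv_E : ∀ j k, inv (E j) = E k ∨ form (inv (E j)) (E k) = 0
  /-- `M` is simply connected, so at most one of the exceptional sections is invariant (two of them
  would be two components of degree one of the fixed surface, which has `2 genus + 2` sheets over
  the base, and `H₁(X; ℤ/2)` would not vanish) -/
  inv_unique : ∀ j k, inv (E j) = E j → inv (E k) = E k → j = k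

namespace HypFib

/-- the Euler characteristic of `X` -/
def chi (P : HypFib) : ℤ := 2 + P.bPlus + P.bMinus

/-- the signature of `X` -/
def sig (P : HypFib) : ℤ := (P.bPlus : ℤ) - P.bMinus

end HypFib

namespace HypPencil

/-- the Euler characteristic of `M` (each of the `base` blow-ups adds one) -/
def eulerM (P : HypPencil) : ℤ := 2 + P.bPlus + P.bMinus - P.base

/-- the signature of `M` (each of the `base` blow-ups subtracts one) -/
def sigM (P : HypPencil) : ℤ := (P.bPlus : ℤ) - P.bMinus + P.base

end HypPencil

end Pool.Agent.H53.HP
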