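import Pool.Agent.H53.HP.Defs

/-!
# An example of the homological data: a pencil of genus 2 on a K3 surface

The double plane branched along a sextic; the pencil of the preimages of the lines through a point
has genus 2, two base points (interchanged by the involution) and 30 irreducible singular fibres.
The lattice of the model is a diagonal one of the signature of the K3 surface blown up in two
points.
-/

namespace Pool.Agent.H53.HP

open scoped BigOperators

namespace Example

/-- the diagonal form with entries `d` -/
def dform {N : ℕ} (d : Fin N → ℤ) : LinearMap.BilinForm ℤ (Fin N → ℤ) :=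
  LinearMap.mk₂ ℤ (fun x y => ∑ k, d k * x k * y k)
    (fun x x' y => by
      rw [← Finset.sum_add_distrib]
      exact Finset.sum_congr rfl (fun k _ => by rw [Pi.add_apply]; ring))
    (fun c x y => by
      rw [smul_eq_mul, Finset.mul_sum]
      exact Finset.sum_congr rfl (fun k _ => by rw [Pi.smul_apply, smul_eq_mul]; ring))
    (fun x y y' => by
      rw [← Finset.sum_add_distrib]
      exact Finset.sum_congr rfl (fun k _ => by rw [Pi.add_apply]; ring))
    (fun c x y => by
      rw [smul_eq_mul, Finset.mul_sum]
      exact Finset.sum_congr rfl (fun k _ => by rw [Pi.smul_apply, smul_eq_mul]; ring))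

lemma dform_apply {N : ℕ} (d : Fin N → ℤ) (x y : Fin N → ℤ) :
    dform d x y = ∑ k, d k * x k * y k := rfl

/-- the number of pairwise orthogonal vectors of positive square -/
lemma pos_le_aux {N : ℕ} (d : Fin N → ℤ) (m : ℕ) (v : Fin m → (Fin N → ℤ))
    (hpos : ∀ i, 0 < dform d (v i) (v i)) (horth : ∀ i j, i ≠ j → dform d (v i) (v j) = 0) :
    m ≤ Fintype.card {k // 0 < d k} := by
  classical
  set L : (Fin m → ℤ) →ₗ[ℤ] ({k // 0 < d k} → ℤ) :=
    { toFun := fun c k => ∑ i, c i * v i k.1
      map_add' := fun c c' => by
        ext k
        simp only [Pi.add_apply]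
        rw [← Finset.sum_add_distrib]
        exact Finset.sum_congr rfl (fun i _ => by ring)
      map_smul' := fun a c => by
        ext k
        simp only [Pi.smul_apply, smul_eq_mul, RingHom.id_apply]
        rw [Finset.mul_sum]
        exact Finset.sum_congr rfl (fun i _ => by ring) } with hL
  have hinj : Function.Injective L := by
    rw [injective_iff_map_eq_zero]
    intro c hc
    have hx : ∀ k, 0 < d k → (∑ i, c i • v i) k = 0 := by
      intro k hk
      have := congrFun hc ⟨k, hk⟩
      simp only [hL, LinearMap.coe_mk, AddHom.coe_mk, Pi.zero_apply] at this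
      rw [Finset.sum_apply]
      simpa only [Pi.smul_apply, smul_eq_mul] using this
    have h1 : dform d (∑ i, c i • v i) (∑ i, c i • v i) ≤ 0 := by
      rw [dform_apply]
      apply Finset.sum_nonpos
      intro k _
      rcases lt_or_ge 0 (d k) with h | h
      · rw [hx k h]; simp
      · nlinarith [mul_self_nonneg ((∑ i, c i • v i) k)]
    have h2 : dform d (∑ i, c i • v i) (∑ i, c i • v i)
        = ∑ i, c i * c i * dform d (v i) (v i) := by
      rw [map_sum]
      apply Finset.sum_congr rfl
      intro i _
      rw [map_smul, map_sum, LinearMap.sum_apply, Finset.sum_eq_single i]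
      · rw [map_smul, LinearMap.smul_apply, smul_eq_mul, smul_eq_mul]; ring
      · intro j _ hj
        rw [map_smul, LinearMap.smul_apply, horth j i hj, smul_zero]
      · intro h; exact absurd (Finset.mem_univ i) h
    rw [h2] at h1
    have h3 : ∀ i ∈ Finset.univ, 0 ≤ c i * c i * dform d (v i) (v i) :=
      fun i _ => mul_nonneg (mul_self_nonneg _) (hpos i).le
    have h4 := (Finset.sum_eq_zero_iff_of_nonneg h3).1 (le_antisymm h1 (Finset.sum_nonneg h3))
    ext i
    have h5 := h4 i (Finset.mem_univ i)
    rcases mul_eq_zero.1 h5 with h | h
    · simpa using h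
    · exact absurd h (hpos i).ne'
  have := LinearMap.finrank_le_finrank_of_injective hinj
  simpa using this

lemma neg_le_aux {N : ℕ} (d : Fin N → ℤ) (m : ℕ) (v : Fin m → (Fin N → ℤ))
    (hneg : ∀ i, dform d (v i) (v i) < 0) (horth : ∀ i j, i ≠ j → dform d (v i) (v j) = 0) :
    m ≤ Fintype.card {k // d k < 0} := by
  have h0 : ∀ x y, dform (fun k => -d k) x y = -dform d x y := by
    intro x y
    rw [dform_apply, dform_apply, ← Finset.sum_neg_distrib]
    exact Finset.sum_congr rfl (fun k _ => by ring)
  have := pos_le_aux (fun k => -d k) m v (fun i => by rw [h0]; have := hneg i; omega)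
    (fun i j hij => by rw [h0, horth i j hij, neg_zero])
  refine this.trans (le_of_eq ?_)
  apply Fintype.card_congr
  exact Equiv.subtypeEquivRight (fun k => by simp)

/-- the entries: `D, E₁, E₂`, two of square `1`, nineteen of square `-1` -/
def d : Fin 24 → ℤ := fun k =>
  if k.val = 0 then 2 else if k.val = 3 then 1 else if k.val = 4 then 1 else -1

def vF : Fin 24 → ℤ := fun k =>
  if k.val = 0 then 1 else if k.val = 1 then -1 else if k.val = 2 then -1 else 0

def vK : Fin 24 → ℤ := fun k => if k.val = 1 then 1 else if k.val = 2 then 1 else 0

def vE : Fin 2 → Fin 24 → ℤ := fun j k => if k.val = j.val + 1 then 1 else 0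

/-- the coordinate used by the involution -/
def s : Fin 24 → Fin 24 := Equiv.swap 1 2

def t : Fin 24 → ℤ := fun k => if k.val < 3 then 1 else -1

def iota : (Fin 24 → ℤ) →ₗ[ℤ] (Fin 24 → ℤ) :=
  { toFun := fun x k => t k * x (s k)
    map_add' := fun x y => by
      ext k
      simp only [Pi.add_apply]
      ring
    map_smul' := fun a x => by
      ext k
      simp only [Pi.smul_apply, smul_eq_mul, RingHom.id_apply]
      ring }

lemma iota_apply (x : Fin 24 → ℤ) (k : Fin 24) : iota x k = t k * x (s k) := rfl

lemma ss (k : Fin 24) : s (s k) = k := Equiv.swap_apply_self 1 2 k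

lemma ts (k : Fin 24) : t k * t (s k) = 1 := by
  revert k
  decide

lemma ds (k : Fin 24) : d (s k) = d k := by
  revert k
  decide

lemma tt (k : Fin 24) : t k * t k = 1 := by
  revert k
  decide

end Example

open Example

/-- the data of the pencil of genus 2 on the K3 surface -/
def k3Pencil : HypPencil where
  H := Fin 24 → ℤ
  form := dform d
  symm := fun x y => by
    rw [dform_apply, dform_apply]
    exact Finset.sum_congr rfl (fun k _ => by ring)
  bPlus := 3
  bMinus := 21
  rank_eq := by simp
  pos_le := fun m v h1 h2 => (pos_le_aux d m v h1 h2).trans (le_of_eq (by decide))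
  neg_le := fun m v h1 h2 => (neg_le_aux d m v h1 h2).trans (le_of_eq (by decide))
  genus := 2
  two_le_genus := le_rfl
  base := 2
  base_pos := by norm_num
  irr := 30
  red := 0
  F := vF
  K := vK
  E := vE
  e := fun p => p.elim0
  gen := fun p => p.elim0
  gen_pos := fun p => p.elim0
  gen_lt := fun p => p.elim0
  F_F := by rw [dform_apply]; decide
  F_dual := ⟨vE 0, by rw [dform_apply]; decide⟩
  K_F := by rw [dform_apply]; decide
  E_F := by
    intro j
    rw [dform_apply]
    revert j
    decide
  K_E := by
    intro j
    rw [dform_apply]
    revert j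
    decide
  E_E := by
    intro j
    rw [dform_apply]
    revert j
    decide
  E_E' := by
    intro j k
    rw [dform_apply]
    revert j k
    decide
  e_F := fun p => p.elim0
  e_e := fun p => p.elim0
  e_e' := fun p => p.elim0
  K_e := fun p => p.elim0
  E_e := fun _ p => p.elim0
  inv := iota
  inv_inv := by
    intro x
    ext k
    rw [iota_apply, iota_apply, ss, ← mul_assoc, ts, one_mul]
  inv_form := by
    intro x y
    rw [dform_apply, dform_apply]
    rw [← Equiv.sum_comp (Equiv.swap (1 : Fin 24) 2) (fun k => d k * x k * y k)]
    apply Finset.sum_congr rfl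
    intro k _
    rw [iota_apply, iota_apply]
    have h1 := ds k
    have h2 := tt k
    unfold s at h1 ⊢
    rw [h1]
    linear_combination (d k * x (Equiv.swap 1 2 k) * y (Equiv.swap 1 2 k)) * h2
  inv_F := by
    ext k
    rw [iota_apply]
    revert k
    decide
  inv_K := by
    ext k
    rw [iota_apply]
    revert k
    decide
  inv_e := fun p => p.elim0
  inv_span := by
    intro x hx hF _
    refine ⟨1, x 0, one_ne_zero, ?_⟩
    have h1 : ∀ k, t k * x (s k) = x k := fun k => by rw [← iota_apply, hx]
    have h2 : x 2 = x 1 := by
      have := h1 1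
      have h3 : t 1 = 1 := by decide
      have h4 : s 1 = 2 := by decide
      rw [h3, h4] at this
      linarith
    have h3 : ∀ k : Fin 24, 3 ≤ k.val → x k = 0 := by
      intro k hk
      have h4 := h1 k
      have h5 : t k = -1 := by
        unfold t
        rw [if_neg (by omega)]
      have h6 : s k = k := by
        unfold s
        apply Equiv.swap_apply_of_ne_of_ne
        · intro h; rw [h] at hk; exact absurd hk (by decide)
        · intro h; rw [h] at hk; exact absurd hk (by decide)
      rw [h5, h6] at h4
      omega
    have h4 : 2 * x 0 + x 1 + x 2 = 0 := by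
      rw [dform_apply] at hF
      have h5 : ∑ k, d k * x k * vF k = ∑ k ∈ ({0, 1, 2} : Finset (Fin 24)), d k * x k * vF k := by
        symm
        apply Finset.sum_subset (Finset.subset_univ _)
        intro k _ hk
        have : 3 ≤ k.val := by
          by_contra h
          apply hk
          rw [not_le] at h
          have h6 : k = 0 ∨ k = 1 ∨ k = 2 := by
            rcases k with ⟨k, hk'⟩
            interval_cases k
            · left; rfl
            · right; left; rfl
            · right; right; rfl
          rcases h6 with h6 | h6 | h6 <;> rw [h6] <;> decide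
        rw [h3 k this]; ring
      rw [h5, Finset.sum_insert (by decide), Finset.sum_insert (by decide),
        Finset.sum_singleton] at hF
      have e0 : d 0 = 2 := by decide
      have e1 : d 1 = -1 := by decide
      have e2 : d 2 = -1 := by decide
      have f0 : vF 0 = 1 := by decide
      have f1 : vF 1 = -1 := by decide
      have f2 : vF 2 = -1 := by decide
      rw [e0, e1, e2, f0, f1, f2] at hF
      linarith
    ext k
    simp only [Pi.smul_apply, smul_eq_mul, one_mul]
    rcases lt_or_ge k.val 3 with h | h
    · rcases k with ⟨k, hk'⟩
      simp only at h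
      interval_cases k
      · show x 0 = x 0 * vF 0
        have f0 : vF 0 = 1 := by decide
        rw [f0]; ring
      · show x 1 = x 0 * vF 1
        have f1 : vF 1 = -1 := by decide
        rw [f1]; linarith
      · show x 2 = x 0 * vF 2
        have f2 : vF 2 = -1 := by decide
        rw [f2]; linarith
    · have : vF k = 0 := by
        unfold vF
        rw [if_neg (by omega), if_neg (by omega), if_neg (by omega)]
      rw [h3 k h, this, mul_zero]
  inv_E := by
    intro j k
    by_cases h : j = k
    · right
      rw [dform_apply]
      subst h
      simp only [iota_apply]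
      revert j
      decide
    · left
      ext i
      rw [iota_apply]
      revert j k i
      decide
  inv_unique := by
    intro j k h _
    exfalso
    have h1 := congrFun h 1
    rw [iota_apply] at h1
    revert j
    decide
  euler := by norm_num
  K_K := by
    rw [dform_apply]
    decide
  endo := by norm_num

theorem exists_example :
    ∃ P : HypPencil, P.genus = 2 ∧ P.base = 2 ∧ P.eulerM = 24 ∧ P.sigM = -16 := by
  refine ⟨k3Pencil, rfl, rfl, ?_, ?_⟩
  · unfold HypPencil.eulerM k3Pencil
    norm_num
  · unfold HypPencil.sigM k3Pencil
    norm_num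

end Pool.Agent.H53.HP
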