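import Pool.Agent.H53.HP.Defs

/-! # Hyperelliptic Lefschetz fibrations -/

namespace Pool.Agent.H53.HP

open scoped BigOperators

namespace HypFib

variable (P : HypFib)

/-- a class orthogonal to the components of the reducible fibres and not to the fibre -/
lemma exists_perp : ∃ y : P.H, (∀ p, P.form y (P.e p) = 0) ∧ P.form y P.F ≠ 0 := by
  classical
  obtain ⟨x, hx⟩ := P.F_dual
  refine ⟨x + ∑ p, P.form x (P.e p) • P.e p, fun q => ?_, ?_⟩
  · simp only [map_add, LinearMap.add_apply, map_sum, LinearMap.sum_apply, map_smul,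
      LinearMap.smul_apply, smul_eq_mul]
    rw [Finset.sum_eq_single q]
    · rw [P.e_e]; ring
    · intro p _ hp
      rw [P.e_e' p q hp]; ring
    · intro h; exact absurd (Finset.mem_univ q) h
  · simp only [map_add, LinearMap.add_apply, map_sum, LinearMap.sum_apply, map_smul,
      LinearMap.smul_apply, smul_eq_mul, P.e_F, mul_zero, Finset.sum_const_zero, add_zero]
    exact hx

lemma sq_shift (y : P.H) (N : ℤ) : P.form (y + N • P.F) (y + N • P.F) =
    P.form y y + 2 * N * P.form y P.F := by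
  simp only [map_add, LinearMap.add_apply, map_smul, LinearMap.smul_apply, smul_eq_mul, P.F_F,
    P.symm P.F y]
  ring

lemma red_lt : P.red + 1 ≤ P.bMinus := by
  obtain ⟨y, hy, hyF⟩ := P.exists_perp
  set c := P.form y y with hc
  set m := P.form y P.F with hm
  have h1 : 1 ≤ m ^ 2 := by
    have : 0 < m ^ 2 := by positivity
    linarith
  have hneg : P.form (y + (-((|c| + 1) * m)) • P.F) (y + (-((|c| + 1) * m)) • P.F) < 0 := by
    rw [P.sq_shift, ← hc, ← hm]
    have h2 : c ≤ |c| := le_abs_self c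
    have h3 : 0 ≤ |c| := abs_nonneg c
    nlinarith
  have hperp : ∀ p, P.form (y + (-((|c| + 1) * m)) • P.F) (P.e p) = 0 := by
    intro p
    simp only [map_add, LinearMap.add_apply, map_smul, LinearMap.smul_apply, smul_eq_mul, hy,
      P.symm P.F (P.e p), P.e_F]
    ring
  refine P.neg_le (P.red + 1) (Fin.cons (y + (-((|c| + 1) * m)) • P.F) P.e) ?_ ?_
  · intro i
    refine Fin.cases ?_ (fun p => ?_) i
    · simpa only [Fin.cons_zero] using hneg
    · simp only [Fin.cons_succ, P.e_e]; norm_num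
  · intro i k hik
    induction i using Fin.cases with
    | zero =>
      induction k using Fin.cases with
      | zero => exact absurd rfl hik
      | succ r => simp only [Fin.cons_zero, Fin.cons_succ]; exact hperp r
    | succ p =>
      induction k using Fin.cases with
      | zero =>
        simp only [Fin.cons_zero, Fin.cons_succ]
        rw [P.symm]
        exact hperp p
      | succ r =>
        simp only [Fin.cons_succ]
        exact P.e_e' p r (fun h => hik (by rw [h]))

lemma bPlus_pos : 1 ≤ P.bPlus := by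
  obtain ⟨y, -, hyF⟩ := P.exists_perp
  set c := P.form y y with hc
  set m := P.form y P.F with hm
  have h1 : 1 ≤ m ^ 2 := by
    have : 0 < m ^ 2 := by positivity
    linarith
  have hpos : 0 < P.form (y + ((|c| + 1) * m) • P.F) (y + ((|c| + 1) * m) • P.F) := by
    rw [P.sq_shift, ← hc, ← hm]
    have h2 : -|c| ≤ c := neg_abs_le c
    have h3 : 0 ≤ |c| := abs_nonneg c
    nlinarith
  exact P.pos_le 1 (fun _ => y + ((|c| + 1) * m) • P.F) (fun _ => hpos)
    (fun i k hik => absurd (Subsingleton.elim i k) hik)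

/-- a hyperelliptic Lefschetz fibration with `χ ≤ 3σ` has genus at least seven -/
lemma seven_le (h : P.chi ≤ 3 * P.sig) : 7 ≤ P.genus := by
  have h1 := P.endo
  have h4 := P.euler
  have h5 : (P.red : ℤ) + 1 ≤ P.bMinus := by exact_mod_cast P.red_lt
  have h6 : (1 : ℤ) ≤ P.bPlus := by exact_mod_cast P.bPlus_pos
  have h7 : (2 : ℤ) ≤ P.genus := by exact_mod_cast P.two_le_genus
  have h2 : ∑ p, (4 * (P.gen p : ℤ) * ((P.genus : ℤ) - P.gen p) - (2 * (P.genus : ℤ) + 1)) ≤
      ((P.genus : ℤ) ^ 2 - (2 * (P.genus : ℤ) + 1)) * P.red := by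
    calc ∑ p, (4 * (P.gen p : ℤ) * ((P.genus : ℤ) - P.gen p) - (2 * (P.genus : ℤ) + 1))
        ≤ ∑ _p : Fin P.red, ((P.genus : ℤ) ^ 2 - (2 * (P.genus : ℤ) + 1)) := by
          refine Finset.sum_le_sum (fun p _ => ?_)
          nlinarith [sq_nonneg ((P.genus : ℤ) - 2 * P.gen p)]
      _ = ((P.genus : ℤ) ^ 2 - (2 * (P.genus : ℤ) + 1)) * P.red := by
          rw [Finset.sum_const, Finset.card_univ, Fintype.card_fin, nsmul_eq_mul]
          ring
  unfold chi sig at h
  by_contra h8
  have h9 : (P.genus : ℤ) ≤ 6 := by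
    have : P.genus ≤ 6 := by omega
    exact_mod_cast this
  have h0 : (0 : ℤ) ≤ P.red := by positivity
  have h10 : (P.irr : ℤ) = 2 + P.bPlus + P.bMinus - 4 + 4 * P.genus - P.red := by linarith
  rw [h10] at h1
  generalize (P.genus : ℤ) = g at *
  generalize (P.bPlus : ℤ) = a at *
  generalize (P.bMinus : ℤ) = c at *
  generalize (P.red : ℤ) = s at *
  have h11 : a * (3 * g + 2) + (g + 1) * (4 * g - 2) ≤ g * c + (g ^ 2 - g) * s := by nlinarith
  have h12 : (g ^ 2 - g) * s ≤ (g ^ 2 - g) * (c - 1) :=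
    mul_le_mul_of_nonneg_left (by linarith) (by nlinarith)
  have h13 : g ^ 2 * (2 * c) ≤ g ^ 2 * (a - 1) :=
    mul_le_mul_of_nonneg_left (by linarith) (sq_nonneg g)
  have h14 : 11 * g ^ 2 + 2 * g - 4 ≤ a * (g ^ 2 - 6 * g - 4) := by nlinarith
  have h15 : g ^ 2 - 6 * g - 4 < 0 := by nlinarith
  nlinarith

end HypFib

end Pool.Agent.H53.HP
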