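import Pool.Agent.H53.HP.Defs

/-! # The invariant part of the lattice of a hyperelliptic Lefschetz pencil -/

namespace Pool.Agent.H53.HP

open scoped BigOperators

namespace HypPencil

variable (P : HypPencil)

/-- the sum of an exceptional section and its image -/
def S (j : Fin P.base) : P.H := P.E j + P.inv (P.E j)

lemma inv_S (j : Fin P.base) : P.inv (P.S j) = P.S j := by
  simp only [S, map_add, P.inv_inv]
  abel

lemma invE_F (j : Fin P.base) : P.form (P.inv (P.E j)) P.F = 1 := by
  have h := P.inv_form (P.E j) P.F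
  rw [P.inv_F] at h
  rw [h, P.E_F]

lemma invE_e (j : Fin P.base) (p : Fin P.red) :
    P.form (P.inv (P.E j)) (P.e p) = P.form (P.E j) (P.e p) := by
  have h := P.inv_form (P.E j) (P.e p)
  rwa [P.inv_e] at h

lemma invE_K (j : Fin P.base) : P.form P.K (P.inv (P.E j)) = -1 := by
  have h := P.inv_form P.K (P.E j)
  rw [P.inv_K] at h
  rw [h, P.K_E]

lemma S_F (j : Fin P.base) : P.form (P.S j) P.F = 2 := by
  simp only [S, map_add, LinearMap.add_apply, P.E_F, P.invE_F]
  norm_num

lemma S_e (j : Fin P.base) (p : Fin P.red) :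
    P.form (P.S j) (P.e p) = 2 * P.form (P.E j) (P.e p) := by
  simp only [S, map_add, LinearMap.add_apply, P.invE_e]
  ring

lemma K_S (j : Fin P.base) : P.form P.K (P.S j) = -2 := by
  simp only [S, map_add, P.K_E, P.invE_K]
  norm_num

lemma S_S (j k : Fin P.base) : P.form (P.S j) (P.S k) =
    2 * P.form (P.E j) (P.E k) + 2 * P.form (P.inv (P.E j)) (P.E k) := by
  have h1 := P.inv_form (P.E j) (P.E k)
  have h2 := P.inv_form (P.inv (P.E j)) (P.E k)
  rw [P.inv_inv] at h2
  simp only [S, map_add, LinearMap.add_apply]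
  rw [h1, h2]
  ring

/-- the formula for the product with an invariant class -/
lemma expand (j : Fin P.base) (x y : P.H) (hx : P.inv x = x) :
    4 * P.form x y = 2 * P.form x P.F * P.form (P.S j) y
      - 2 * ∑ p, (2 * P.form x (P.e p) - P.form x P.F * P.form (P.S j) (P.e p)) * P.form (P.e p) y
      + P.form P.F y * (2 * P.form x (P.S j) - P.form x P.F * P.form (P.S j) (P.S j)
        + ∑ p, (2 * P.form x (P.e p) - P.form x P.F * P.form (P.S j) (P.e p)) *
          P.form (P.e p) (P.S j)) := by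
  classical
  set c : Fin P.red → ℤ := fun p =>
    2 * P.form x (P.e p) - P.form x P.F * P.form (P.S j) (P.e p) with hc
  set z : P.H := (2 : ℤ) • x - (P.form x P.F) • P.S j + ∑ p, c p • P.e p with hz
  have hform : ∀ w, P.form z w = 2 * P.form x w - P.form x P.F * P.form (P.S j) w
      + ∑ p, c p * P.form (P.e p) w := by
    intro w
    simp only [hz, map_add, map_sub, LinearMap.add_apply, LinearMap.sub_apply, map_smul,
      LinearMap.smul_apply, smul_eq_mul, map_sum, LinearMap.sum_apply]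
  have hzi : P.inv z = z := by
    simp only [hz, map_add, map_sub, map_smul, map_sum, P.inv_e, P.inv_S, hx]
  have hzF : P.form z P.F = 0 := by
    rw [hform, P.S_F]
    simp only [P.e_F, mul_zero, Finset.sum_const_zero]
    ring
  have hze : ∀ q, P.form z (P.e q) = 0 := by
    intro q
    rw [hform]
    have h1 : ∑ p, c p * P.form (P.e p) (P.e q) = -(c q) := by
      rw [Finset.sum_eq_single q]
      · rw [P.e_e]; ring
      · intro p _ hp
        rw [P.e_e' p q hp]; ring
      · intro h; exact absurd (Finset.mem_univ q) h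
    rw [h1, hc]
    ring
  obtain ⟨m, a, hm, hma⟩ := P.inv_span z hzi hzF hze
  have h1 : m * P.form z y = a * P.form P.F y := by
    have := congrArg (fun w => P.form w y) hma
    simpa only [map_smul, LinearMap.smul_apply, smul_eq_mul] using this
  have h2 : m * P.form z (P.S j) = a * 2 := by
    have := congrArg (fun w => P.form w (P.S j)) hma
    simp only [map_smul, LinearMap.smul_apply, smul_eq_mul] at this
    rw [this, P.symm P.F, P.S_F]
  have h3 : 2 * P.form z y = P.form P.F y * P.form z (P.S j) := by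
    apply mul_left_cancel₀ hm
    linear_combination 2 * h1 - P.form P.F y * h2
  rw [hform, hform] at h3
  linear_combination h3

/-- the self-intersection defect `E · ιE` is `-1` or `0` -/
lemma x_cases (j : Fin P.base) :
    (P.inv (P.E j) = P.E j ∧ P.form (P.inv (P.E j)) (P.E j) = -1) ∨
      (P.inv (P.E j) ≠ P.E j ∧ P.form (P.inv (P.E j)) (P.E j) = 0) := by
  rcases P.inv_E j j with h | h
  · left
    exact ⟨h, by rw [h, P.E_E]⟩
  · right
    refine ⟨?_, h⟩
    intro h'
    rw [h', P.E_E] at h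
    norm_num at h

/-- the genus of the component of the reducible fibre `p` which does not meet `E j` -/
def gen' (j : Fin P.base) (p : Fin P.red) : ℤ :=
  if P.form (P.E j) (P.e p) = 0 then (P.gen p : ℤ) else (P.genus : ℤ) - P.gen p

/-- the canonical class in terms of an exceptional section -/
lemma K_K_eq (j : Fin P.base) : P.form P.K P.K = -4 * ((P.genus : ℤ) - 1)
    - 2 * ((P.genus : ℤ) - 1) ^ 2 * (P.form (P.inv (P.E j)) (P.E j) - 1)
    - ∑ p, (2 * P.gen' j p - 1) ^ 2 := by
  have h := P.expand j P.K P.K P.inv_K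
  rw [P.symm (P.S j) P.K, P.K_S, P.K_F, P.symm P.F P.K, P.K_F, P.S_S, P.E_E] at h
  have h1 : ∀ p, (2 * P.form P.K (P.e p) - (2 * (P.genus : ℤ) - 2) * P.form (P.S j) (P.e p)) *
      P.form (P.e p) P.K = (2 * (2 * (P.gen p : ℤ) - 1) - (2 * (P.genus : ℤ) - 2) *
        (2 * P.form (P.E j) (P.e p))) * (2 * (P.gen p : ℤ) - 1) := by
    intro p
    rw [P.symm (P.e p) P.K, P.K_e, P.S_e]
  have h2 : ∀ p, (2 * P.form P.K (P.e p) - (2 * (P.genus : ℤ) - 2) * P.form (P.S j) (P.e p)) *
      P.form (P.e p) (P.S j) = (2 * (2 * (P.gen p : ℤ) - 1) - (2 * (P.genus : ℤ) - 2) *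
        (2 * P.form (P.E j) (P.e p))) * (2 * P.form (P.E j) (P.e p)) := by
    intro p
    rw [P.symm (P.e p) (P.S j), P.K_e, P.S_e]
  rw [Finset.sum_congr rfl (fun p _ => h1 p), Finset.sum_congr rfl (fun p _ => h2 p)] at h
  have h3 : ∑ p, (2 * P.gen' j p - 1) ^ 2 = ∑ p, (2 * (P.gen p : ℤ) - 1
      - (2 * (P.genus : ℤ) - 2) * P.form (P.E j) (P.e p)) ^ 2 := by
    refine Finset.sum_congr rfl (fun p _ => ?_)
    unfold gen'
    rcases P.E_e j p with h0 | h0
    · rw [if_pos h0, h0]; ring
    · rw [if_neg (by rw [h0]; norm_num), h0]; ring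
  have h4 : ∑ p, (2 * (P.gen p : ℤ) - 1
      - (2 * (P.genus : ℤ) - 2) * P.form (P.E j) (P.e p)) ^ 2 * 4 =
      2 * ∑ p, (2 * (2 * (P.gen p : ℤ) - 1) - (2 * (P.genus : ℤ) - 2) *
        (2 * P.form (P.E j) (P.e p))) * (2 * (P.gen p : ℤ) - 1)
      - (2 * (P.genus : ℤ) - 2) * ∑ p, (2 * (2 * (P.gen p : ℤ) - 1) - (2 * (P.genus : ℤ) - 2) *
        (2 * P.form (P.E j) (P.e p))) * (2 * P.form (P.E j) (P.e p)) := by
    rw [Finset.mul_sum, Finset.mul_sum, ← Finset.sum_sub_distrib]
    refine Finset.sum_congr rfl (fun p _ => ?_)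
    ring
  rw [← Finset.sum_mul, ← h3] at h4
  linarith [h, h4]

/-- the number of reducible fibres which separate two sections -/
lemma dist_eq (j k : Fin P.base) :
    P.form (P.S j) (P.S j) + P.form (P.S k) (P.S k) - 2 * P.form (P.S j) (P.S k) =
      -4 * ∑ p, (P.form (P.E j) (P.e p) - P.form (P.E k) (P.e p)) ^ 2 := by
  have h := P.expand j (P.S k) (P.S k) (P.inv_S k)
  rw [P.S_F, P.symm P.F (P.S k), P.S_F, P.symm (P.S k) (P.S j)] at h
  have h4 : 16 * ∑ p, (P.form (P.E j) (P.e p) - P.form (P.E k) (P.e p)) ^ 2 =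
      2 * ∑ p, (2 * P.form (P.S k) (P.e p) - 2 * P.form (P.S j) (P.e p)) *
        P.form (P.e p) (P.S k) - 2 * ∑ p, (2 * P.form (P.S k) (P.e p) -
        2 * P.form (P.S j) (P.e p)) * P.form (P.e p) (P.S j) := by
    rw [Finset.mul_sum, Finset.mul_sum, Finset.mul_sum, ← Finset.sum_sub_distrib]
    refine Finset.sum_congr rfl (fun p _ => ?_)
    rw [P.symm (P.e p) (P.S k), P.symm (P.e p) (P.S j), P.S_e, P.S_e]
    ring
  linarith [h, h4]

end HypPencil

end Pool.Agent.H53.HP
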