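import Mathlib

/-! # The numerical part -/

namespace Pool.Agent.H53.HP

/-- dropping `t` -/
lemma drop_t {N r t H : ℤ} (ht : 0 ≤ t) (htr : t ≤ r) (hN : 2 * r ≤ N)
    (h : (N - t) ^ 2 ≤ 16 * ((r - t) * H)) (hr : 0 < r) : N ^ 2 ≤ 16 * (r * H) := by
  by_cases htr' : t = r
  · subst htr'
    have h1 : (N - t) ^ 2 ≤ 0 := by
      have : (t - t) * H = 0 := by ring
      rw [this] at h
      linarith
    have h2 : 0 < N - t := by linarith
    nlinarith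
  · have hlt : 0 < r - t := by
      have : t < r := lt_of_le_of_ne htr htr'
      linarith
    -- `(N - t)^2 r ≥ N^2 (r - t)`
    have h1 : N ^ 2 * (r - t) ≤ (N - t) ^ 2 * r := by
      have : (N - t) ^ 2 * r - N ^ 2 * (r - t) = t * (N * (N - 2 * r) + t * r) := by ring
      have h2 : 0 ≤ N := by linarith
      have h3 : 0 ≤ N * (N - 2 * r) := mul_nonneg h2 (by linarith)
      have h4 : 0 ≤ t * r := mul_nonneg ht hr.le
      have h5 : 0 ≤ t * (N * (N - 2 * r) + t * r) := mul_nonneg ht (by linarith)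
      linarith
    have h2 : N ^ 2 * (r - t) ≤ (16 * (r * H)) * (r - t) := by
      calc N ^ 2 * (r - t) ≤ (N - t) ^ 2 * r := h1
        _ ≤ (16 * ((r - t) * H)) * r := by nlinarith
        _ = (16 * (r * H)) * (r - t) := by ring
    exact le_of_mul_le_mul_right h2 hlt

/-- the fixed case: the inequality -/
lemma ineq_fix {g q s t A B : ℤ} (hg : 2 ≤ g) (hq : 0 ≤ q) (hs : 0 ≤ s) (ht : 0 ≤ t)
    (hst : s + t ≤ q) (hA : 4 * A = 8 * g + 6 * q - t) (hB : B = g ^ 2 - g - q)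
    (hc : A ^ 2 ≤ s * B) (hB0 : 0 ≤ B) :
    13 * q ^ 2 + 4 * g * (7 - g) * q + 16 * g ^ 2 ≤ 0 ∧ 5 ≤ q := by
  have h1 : (8 * g + 6 * q - t) ^ 2 ≤ 16 * ((q - t) * B) := by
    have h2 : s * B ≤ (q - t) * B := mul_le_mul_of_nonneg_right (by linarith) hB0
    have h3 : (4 * A) ^ 2 ≤ 16 * ((q - t) * B) := by nlinarith
    rwa [hA] at h3
  have hq1 : 0 < q := by
    by_contra h
    have hq0 : q = 0 := by linarith
    have ht0 : t = 0 := by linarith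
    subst hq0 ht0
    have : (8 * g) ^ 2 ≤ 0 := by simpa using h1
    nlinarith
  have h4 := drop_t ht (by linarith) (by linarith) h1 hq1
  have h5 : 13 * q ^ 2 + 4 * g * (7 - g) * q + 16 * g ^ 2 ≤ 0 := by
    rw [hB] at h4
    nlinarith
  refine ⟨h5, ?_⟩
  by_contra h6
  have h7 : q ≤ 4 := by linarith
  -- `16 g² ≤ 4 g² q - 28 g q - 13 q²`
  have h8 : 16 * g ^ 2 + 28 * g * q + 13 * q ^ 2 ≤ 4 * g ^ 2 * q := by linarith
  have h9 : 4 * g ^ 2 * q ≤ 16 * g ^ 2 := by nlinarith [sq_nonneg g]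
  have h10 : 0 < 28 * g * q := by positivity
  nlinarith [sq_nonneg q]

/-- the fixed case: the genus -/
lemma genus_fix {g q : ℤ} (hg : 2 ≤ g)
    (h : 13 * q ^ 2 + 4 * g * (7 - g) * q + 16 * g ^ 2 ≤ 0) : 15 ≤ g := by
  by_contra h1
  have h2 : g ≤ 14 := by linarith
  -- `4 * 13 * (..) = (26 q + 4 g (7 - g))² + 16 g² (52 - (7 - g)²)`
  have h3 : 0 < 52 - (7 - g) ^ 2 := by nlinarith
  have h4 : 0 < 16 * g ^ 2 * (52 - (7 - g) ^ 2) := by positivity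
  nlinarith [sq_nonneg (26 * q + 4 * g * (7 - g))]

/-- the swapped case: the inequality -/
lemma ineq_swap {g q s t A B : ℤ} (hg : 2 ≤ g) (hq : 0 ≤ q) (hs : 0 ≤ s) (ht : 0 ≤ t)
    (hst : s + t ≤ q + 3) (hA : 4 * A = 6 * g + 2 + 6 * q - t) (hB : 2 * B = g ^ 2 - g - 2 * q)
    (hc : A ^ 2 ≤ s * B) (hB0 : 0 ≤ B) :
    13 * q ^ 2 + (20 * g + 18 - 2 * g ^ 2) * q + 3 * g ^ 2 + 12 * g + 1 ≤ 0 ∧ 2 ≤ q := by
  have h1 : (6 * g + 2 + 6 * q - t) ^ 2 ≤ 16 * ((q + 3 - t) * B) := by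
    have h2 : s * B ≤ (q + 3 - t) * B := mul_le_mul_of_nonneg_right (by linarith) hB0
    have h3 : (4 * A) ^ 2 ≤ 16 * ((q + 3 - t) * B) := by nlinarith
    rwa [hA] at h3
  have h4 := drop_t ht (by linarith) (by linarith) h1 (by linarith)
  have h5 : 13 * q ^ 2 + (20 * g + 18 - 2 * g ^ 2) * q + 3 * g ^ 2 + 12 * g + 1 ≤ 0 := by
    have h6 : 16 * ((q + 3) * B) = 8 * ((q + 3) * (g ^ 2 - g - 2 * q)) := by
      rw [← hB]; ring
    rw [h6] at h4
    nlinarith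
  refine ⟨h5, ?_⟩
  by_contra h6
  have h7 : q = 0 ∨ q = 1 := by omega
  rcases h7 with h7 | h7
  · subst h7
    nlinarith
  · subst h7
    nlinarith

/-- the swapped case: the genus -/
lemma genus_swap {g q : ℤ} (hg : 2 ≤ g) (hq : 0 ≤ q)
    (h : 13 * q ^ 2 + (20 * g + 18 - 2 * g ^ 2) * q + 3 * g ^ 2 + 12 * g + 1 ≤ 0) : 18 ≤ g := by
  by_contra h1
  have h2 : g ≤ 17 := by linarith
  by_cases h3 : g ≤ 10
  · have h4 : 0 ≤ 20 * g + 18 - 2 * g ^ 2 := by nlinarith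
    have h5 : 0 ≤ (20 * g + 18 - 2 * g ^ 2) * q := mul_nonneg h4 hq
    nlinarith [sq_nonneg q]
  · have h4 : 11 ≤ g := by linarith
    have h5 : 0 < 13 * (3 * g ^ 2 + 12 * g + 1) - (10 * g + 9 - g ^ 2) ^ 2 := by
      interval_cases g <;> norm_num
    nlinarith [sq_nonneg (13 * q + (10 * g + 9 - g ^ 2))]

end Pool.Agent.H53.HP
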