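import Pool.Agent.H53.HP.Lat
import Pool.Agent.H53.HP.Num
import Pool.Agent.H53.HP.Fib

/-! # Hyperelliptic Lefschetz pencils: the theorem -/

namespace Pool.Agent.H53.HP

open scoped BigOperators

namespace HypPencil

variable (P : HypPencil)

lemma E_inj {j k : Fin P.base} (h : P.E j = P.E k) : j = k := by
  by_contra hjk
  have h1 := P.E_E' j k hjk
  rw [h, P.E_E] at h1
  norm_num at h1

/-- if one exceptional section is invariant, then all are -/
lemma fixed_of_fixed {j : Fin P.base} (hj : P.inv (P.E j) = P.E j) (k : Fin P.base) :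
    P.inv (P.E k) = P.E k := by
  by_contra hk
  have hjk : j ≠ k := by
    rintro rfl
    exact hk hj
  have h := P.dist_eq j k
  rw [P.S_S, P.S_S, P.S_S, P.E_E, P.E_E, P.E_E' j k hjk] at h
  have h1 : P.form (P.inv (P.E j)) (P.E j) = -1 := by rw [hj, P.E_E]
  have h2 : P.form (P.inv (P.E k)) (P.E k) = 0 := by
    rcases P.inv_E k k with h2 | h2
    · exact absurd h2 hk
    · exact h2
  have h3 : P.form (P.inv (P.E j)) (P.E k) = 0 := by rw [hj, P.E_E' j k hjk]
  rw [h1, h2, h3] at h
  omega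

/-- an invariant exceptional section is the only one -/
lemma base_eq_one {j : Fin P.base} (hj : P.inv (P.E j) = P.E j) : P.base = 1 := by
  have h1 := P.base_pos
  by_contra h2
  have h3 : 1 < P.base := by omega
  have h4 := P.inv_unique ⟨0, by omega⟩ ⟨1, h3⟩ (P.fixed_of_fixed hj _) (P.fixed_of_fixed hj _)
  simp at h4

/-- two sections which are not invariant and not swapped are separated by exactly one fibre -/
lemma dist_one (hn : ∀ j, P.inv (P.E j) ≠ P.E j) {j k : Fin P.base} (hjk : j ≠ k)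
    (hs : P.inv (P.E j) ≠ P.E k) :
    ∑ p, (P.form (P.E j) (P.e p) - P.form (P.E k) (P.e p)) ^ 2 = 1 := by
  have h := P.dist_eq j k
  rw [P.S_S, P.S_S, P.S_S, P.E_E, P.E_E, P.E_E' j k hjk] at h
  have h1 : P.form (P.inv (P.E j)) (P.E j) = 0 := by
    rcases P.inv_E j j with h2 | h2
    · exact absurd h2 (hn j)
    · exact h2
  have h2 : P.form (P.inv (P.E k)) (P.E k) = 0 := by
    rcases P.inv_E k k with h2 | h2
    · exact absurd h2 (hn k)
    · exact h2
  have h3 : P.form (P.inv (P.E j)) (P.E k) = 0 := by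
    rcases P.inv_E j k with h2 | h2
    · exact absurd h2 hs
    · exact h2
  rw [h1, h2, h3] at h
  omega

/-- there are at most four base points -/
lemma base_le_four : P.base ≤ 4 := by
  classical
  by_cases hf : ∃ j, P.inv (P.E j) = P.E j
  · obtain ⟨j, hj⟩ := hf
    rw [P.base_eq_one hj]
    norm_num
  · push Not at hf
    by_contra hb
    have hb5 : 5 ≤ P.base := by omega
    -- the partner of an index
    have hpart : ∀ j : Fin P.base,
        (Finset.univ.filter (fun k => P.inv (P.E j) = P.E k)).card ≤ 1 := by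
      intro j
      rw [Finset.card_le_one]
      intro a ha b hb
      simp only [Finset.mem_filter, Finset.mem_univ, true_and] at ha hb
      exact P.E_inj (ha.symm.trans hb)
    let a : Fin P.base := ⟨0, by omega⟩
    have h1 : (({a} : Finset (Fin P.base)) ∪
        Finset.univ.filter (fun k => P.inv (P.E a) = P.E k)).card < Fintype.card (Fin P.base) := by
      refine lt_of_le_of_lt (Finset.card_union_le _ _) ?_
      have := hpart a
      rw [Finset.card_singleton, Fintype.card_fin]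
      omega
    obtain ⟨b, hb'⟩ : ∃ b, b ∉ (({a} : Finset (Fin P.base)) ∪
        Finset.univ.filter (fun k => P.inv (P.E a) = P.E k)) := by
      by_contra hcon
      push Not at hcon
      have h2 : (({a} : Finset (Fin P.base)) ∪
        Finset.univ.filter (fun k => P.inv (P.E a) = P.E k)) = Finset.univ :=
        Finset.eq_univ_iff_forall.2 hcon
      rw [h2, Finset.card_univ] at h1
      exact lt_irrefl _ h1
    have h2 : ((({a} : Finset (Fin P.base)) ∪
        Finset.univ.filter (fun k => P.inv (P.E a) = P.E k)) ∪ (({b} : Finset (Fin P.base)) ∪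
        Finset.univ.filter (fun k => P.inv (P.E b) = P.E k))).card <
          Fintype.card (Fin P.base) := by
      refine lt_of_le_of_lt (Finset.card_union_le _ _) ?_
      refine lt_of_le_of_lt (Nat.add_le_add (Finset.card_union_le _ _)
        (Finset.card_union_le _ _)) ?_
      have h3 := hpart a
      have h4 := hpart b
      rw [Finset.card_singleton, Finset.card_singleton, Fintype.card_fin]
      omega
    obtain ⟨c, hc'⟩ : ∃ c, c ∉ ((({a} : Finset (Fin P.base)) ∪
        Finset.univ.filter (fun k => P.inv (P.E a) = P.E k)) ∪ (({b} : Finset (Fin P.base)) ∪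
        Finset.univ.filter (fun k => P.inv (P.E b) = P.E k))) := by
      by_contra hcon
      push Not at hcon
      have h3 : ((({a} : Finset (Fin P.base)) ∪
        Finset.univ.filter (fun k => P.inv (P.E a) = P.E k)) ∪ (({b} : Finset (Fin P.base)) ∪
        Finset.univ.filter (fun k => P.inv (P.E b) = P.E k))) = Finset.univ :=
        Finset.eq_univ_iff_forall.2 hcon
      rw [h3, Finset.card_univ] at h2
      exact lt_irrefl _ h2
    simp only [Finset.mem_union, Finset.mem_singleton, Finset.mem_filter, Finset.mem_univ,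
      true_and, not_or] at hb' hc'
    obtain ⟨hba, hab⟩ := hb'
    obtain ⟨⟨hca, hac⟩, hcb, hbc⟩ := hc'
    have e1 := P.dist_one hf (Ne.symm hba) hab
    have e2 := P.dist_one hf (Ne.symm hcb) hbc
    have e3 := P.dist_one hf (Ne.symm hca) hac
    -- parity
    have e4 : (2 : ℤ) ∣ ∑ p, ((P.form (P.E a) (P.e p) - P.form (P.E b) (P.e p)) ^ 2 +
        (P.form (P.E b) (P.e p) - P.form (P.E c) (P.e p)) ^ 2 +
        (P.form (P.E a) (P.e p) - P.form (P.E c) (P.e p)) ^ 2) := by
      refine Finset.dvd_sum (fun p _ => ?_)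
      rcases P.E_e a p with h | h <;> rcases P.E_e b p with h' | h' <;>
        rcases P.E_e c p with h'' | h'' <;> rw [h, h', h''] <;> norm_num
    rw [Finset.sum_add_distrib, Finset.sum_add_distrib, e1, e2, e3] at e4
    norm_num at e4

/-- the squares of the numbers `2 gen' - 1` for two sections -/
lemma gen'_diff (a k : Fin P.base) (p : Fin P.red) :
    (2 * P.gen' a p - 1) ^ 2 - (2 * P.gen' k p - 1) ^ 2 = (2 * (P.genus : ℤ) - 2) *
      ((P.form (P.E k) (P.e p) - P.form (P.E a) (P.e p)) * (4 * (P.gen p : ℤ) - 2 * P.genus)) := by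
  unfold gen'
  rcases P.E_e a p with h | h <;> rcases P.E_e k p with h' | h' <;> rw [h, h'] <;> norm_num <;>
    ring

/-- with at least three base points some reducible fibre has two components of equal genus -/
lemma exists_half (hb : 3 ≤ P.base) : ∃ p, 2 * P.gen p = P.genus := by
  classical
  have hf : ∀ j, P.inv (P.E j) ≠ P.E j := by
    intro j hj
    have := P.base_eq_one hj
    omega
  let a : Fin P.base := ⟨0, by omega⟩
  obtain ⟨k, hak, hk⟩ : ∃ k, a ≠ k ∧ P.inv (P.E a) ≠ P.E k := by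
    let b : Fin P.base := ⟨1, by omega⟩
    let c : Fin P.base := ⟨2, by omega⟩
    by_cases h : P.inv (P.E a) = P.E b
    · refine ⟨c, ?_, ?_⟩
      · intro h'
        have := congrArg Fin.val h'
        simp [a, c] at this
      · intro h'
        have h1 := congrArg Fin.val (P.E_inj (h.symm.trans h'))
        simp [b, c] at h1
    · refine ⟨b, ?_, h⟩
      intro h'
      have := congrArg Fin.val h'
      simp [a, b] at this
  have h1 := P.dist_one hf hak hk
  have hx : ∀ j, P.form (P.inv (P.E j)) (P.E j) = 0 := by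
    intro j
    rcases P.inv_E j j with h2 | h2
    · exact absurd h2 (hf j)
    · exact h2
  have h2 := P.K_K_eq a
  have h3 := P.K_K_eq k
  rw [hx] at h2 h3
  have h4 : ∑ p, ((2 * P.gen' a p - 1) ^ 2 - (2 * P.gen' k p - 1) ^ 2) = 0 := by
    rw [Finset.sum_sub_distrib]
    linarith
  rw [Finset.sum_congr rfl (fun p _ => P.gen'_diff a k p), ← Finset.mul_sum] at h4
  have hg : (2 * (P.genus : ℤ) - 2) ≠ 0 := by
    have : (2 : ℤ) ≤ P.genus := by exact_mod_cast P.two_le_genus
    intro h0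
    linarith
  have h5 := (mul_eq_zero.1 h4).resolve_left hg
  -- the separating fibre
  obtain ⟨p, hp⟩ : ∃ p, P.form (P.E a) (P.e p) - P.form (P.E k) (P.e p) ≠ 0 := by
    by_contra hcon
    push Not at hcon
    rw [Finset.sum_congr rfl (fun p _ => by rw [hcon p])] at h1
    simp at h1
  have h6 : ∀ r, r ≠ p → P.form (P.E a) (P.e r) - P.form (P.E k) (P.e r) = 0 := by
    intro r hr
    by_contra hcon
    have h7 : (P.form (P.E a) (P.e p) - P.form (P.E k) (P.e p)) ^ 2 +
        (P.form (P.E a) (P.e r) - P.form (P.E k) (P.e r)) ^ 2 ≤ 1 := by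
      rw [← h1, ← Finset.sum_pair (f := fun p =>
        (P.form (P.E a) (P.e p) - P.form (P.E k) (P.e p)) ^ 2) (Ne.symm hr)]
      exact Finset.sum_le_sum_of_subset_of_nonneg (Finset.subset_univ _)
        (fun _ _ _ => sq_nonneg _)
    have h8 : 0 < (P.form (P.E a) (P.e p) - P.form (P.E k) (P.e p)) ^ 2 := by positivity
    have h9 : 0 < (P.form (P.E a) (P.e r) - P.form (P.E k) (P.e r)) ^ 2 := by positivity
    linarith
  rw [Finset.sum_eq_single p] at h5
  · rcases mul_eq_zero.1 h5 with h7 | h7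
    · exact absurd (by linarith) hp
    · refine ⟨p, ?_⟩
      have : 2 * (P.gen p : ℤ) = P.genus := by linarith
      exact_mod_cast this
  · intro r _ hr
    have := h6 r hr
    have h7 : P.form (P.E k) (P.e r) - P.form (P.E a) (P.e r) = 0 := by linarith
    rw [h7, zero_mul]
  · intro h; exact absurd (Finset.mem_univ p) h

/-- Endo's formula with the components which miss a section -/
lemma endo' (j : Fin P.base) : (2 * (P.genus : ℤ) + 1) * ((P.bPlus : ℤ) - P.bMinus) =
    -((P.genus : ℤ) + 1) * P.irr + 4 * P.genus * (∑ p, P.gen' j p)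
      - 4 * (∑ p, P.gen' j p ^ 2) - (2 * (P.genus : ℤ) + 1) * P.red := by
  rw [P.endo]
  have h : ∑ p, (4 * (P.gen p : ℤ) * ((P.genus : ℤ) - P.gen p) - (2 * (P.genus : ℤ) + 1)) =
      4 * P.genus * (∑ p, P.gen' j p) - 4 * (∑ p, P.gen' j p ^ 2)
        - (2 * (P.genus : ℤ) + 1) * P.red := by
    have h1 : (2 * (P.genus : ℤ) + 1) * P.red = ∑ _p : Fin P.red, (2 * (P.genus : ℤ) + 1) := by
      simp [mul_comm]
    rw [h1, Finset.mul_sum, Finset.mul_sum, ← Finset.sum_sub_distrib, ← Finset.sum_sub_distrib]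
    refine Finset.sum_congr rfl (fun p _ => ?_)
    unfold gen'
    split_ifs <;> ring
  rw [h]
  ring

lemma K_K' (j : Fin P.base) :
    2 * ((2 : ℤ) + P.bPlus + P.bMinus) + 3 * ((P.bPlus : ℤ) - P.bMinus) =
      -4 * ((P.genus : ℤ) - 1)
      - 2 * ((P.genus : ℤ) - 1) ^ 2 * (P.form (P.inv (P.E j)) (P.E j) - 1)
      - 4 * (∑ p, P.gen' j p ^ 2) + 4 * (∑ p, P.gen' j p) - P.red := by
  rw [← P.K_K, P.K_K_eq j]
  have h : ∑ p, (2 * P.gen' j p - 1) ^ 2 =
      4 * (∑ p, P.gen' j p ^ 2) - 4 * (∑ p, P.gen' j p) + P.red := by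
    have h1 : (P.red : ℤ) = ∑ _p : Fin P.red, (1 : ℤ) := by simp
    rw [h1, Finset.mul_sum, Finset.mul_sum, ← Finset.sum_sub_distrib, ← Finset.sum_add_distrib]
    refine Finset.sum_congr rfl (fun p _ => ?_)
    ring
  rw [h]
  ring

lemma cauchy (j : Fin P.base) :
    (∑ p, P.gen' j p) ^ 2 ≤ (P.red : ℤ) * ∑ p, P.gen' j p ^ 2 := by
  have h := sq_sum_le_card_mul_sum_sq (s := Finset.univ) (f := fun p => P.gen' j p)
  simpa using h

/-- the case of an invariant section -/
lemma fixed_case {j : Fin P.base} (hj : P.inv (P.E j) = P.E j) (h : P.eulerM ≤ 3 * P.sigM) :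
    15 ≤ P.genus ∧ 5 ≤ P.bPlus := by
  have hb := P.base_eq_one hj
  have hx : P.form (P.inv (P.E j)) (P.E j) = -1 := by rw [hj, P.E_E]
  have h1 := P.endo' j
  have h2 := P.K_K' j
  have h3 := P.cauchy j
  have h4 := P.euler
  have h5 : (P.red : ℤ) + 1 ≤ P.bMinus := by exact_mod_cast P.toHypFib.red_lt
  have h6 : (1 : ℤ) ≤ P.bPlus := by exact_mod_cast P.toHypFib.bPlus_pos
  have h7 : (2 : ℤ) ≤ P.genus := by exact_mod_cast P.two_le_genus
  have h8 : 0 ≤ ∑ p, P.gen' j p ^ 2 := Finset.sum_nonneg (fun p _ => sq_nonneg _)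
  have h0 : (0 : ℤ) ≤ P.red := by positivity
  rw [hx] at h2
  unfold eulerM sigM at h
  rw [hb] at h
  push_cast at h
  generalize ∑ p, P.gen' j p = A at h1 h2 h3
  generalize ∑ p, P.gen' j p ^ 2 = B at h1 h2 h3 h8
  have hg1 : ((P.genus : ℤ) - 1) ≠ 0 := by
    intro h0
    linarith
  have h9 : 4 * B = 2 * (2 * (P.genus : ℤ) ^ 2 - 2 * P.genus + 1 - P.bPlus) := by
    apply mul_left_cancel₀ hg1
    have h10 : (P.irr : ℤ) = 2 + P.bPlus + P.bMinus - 4 + 4 * P.genus - P.red := by linarith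
    rw [h10] at h1
    linear_combination (P.genus : ℤ) * h2 - h1
  obtain ⟨q, hq⟩ : ∃ q : ℤ, (P.bPlus : ℤ) = 2 * q + 1 := by
    refine ⟨(P.genus : ℤ) ^ 2 - P.genus - B, by linarith⟩
  have hq0 : 0 ≤ q := by linarith
  have hB : B = (P.genus : ℤ) ^ 2 - P.genus - q := by linarith
  obtain ⟨t, ht⟩ : ∃ t : ℤ, t = P.bMinus - 1 - P.red := ⟨_, rfl⟩
  have hA : 4 * A = 8 * (P.genus : ℤ) + 6 * q - t := by
    rw [hB, hq] at h2
    rw [ht]
    linear_combination -h2
  obtain ⟨h11, h12⟩ := ineq_fix h7 hq0 h0 (by linarith) (by linarith) hA hB h3 h8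
  refine ⟨by exact_mod_cast genus_fix h7 h11, ?_⟩
  have : (5 : ℤ) ≤ P.bPlus := by linarith
  exact_mod_cast this

/-- the case without an invariant section -/
lemma swap_case (hn : ∀ j, P.inv (P.E j) ≠ P.E j) (h : P.eulerM ≤ 3 * P.sigM) :
    18 ≤ P.genus ∧ 5 ≤ P.bPlus := by
  have hj : 0 < P.base := P.base_pos
  let j : Fin P.base := ⟨0, hj⟩
  have hb : (P.base : ℤ) ≤ 4 := by exact_mod_cast P.base_le_four
  have hx : P.form (P.inv (P.E j)) (P.E j) = 0 := by
    rcases P.inv_E j j with h2 | h2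
    · exact absurd h2 (hn j)
    · exact h2
  have h1 := P.endo' j
  have h2 := P.K_K' j
  have h3 := P.cauchy j
  have h4 := P.euler
  have h5 : (P.red : ℤ) + 1 ≤ P.bMinus := by exact_mod_cast P.toHypFib.red_lt
  have h6 : (1 : ℤ) ≤ P.bPlus := by exact_mod_cast P.toHypFib.bPlus_pos
  have h7 : (2 : ℤ) ≤ P.genus := by exact_mod_cast P.two_le_genus
  have h8 : 0 ≤ ∑ p, P.gen' j p ^ 2 := Finset.sum_nonneg (fun p _ => sq_nonneg _)
  have h0 : (0 : ℤ) ≤ P.red := by positivity
  rw [hx] at h2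
  unfold eulerM sigM at h
  generalize ∑ p, P.gen' j p = A at h1 h2 h3
  generalize ∑ p, P.gen' j p ^ 2 = B at h1 h2 h3 h8
  have hg1 : ((P.genus : ℤ) - 1) ≠ 0 := by
    intro h0
    linarith
  have h9 : 4 * B = 2 * ((P.genus : ℤ) ^ 2 - P.genus + 1 - P.bPlus) := by
    apply mul_left_cancel₀ hg1
    have h10 : (P.irr : ℤ) = 2 + P.bPlus + P.bMinus - 4 + 4 * P.genus - P.red := by linarith
    rw [h10] at h1
    linear_combination (P.genus : ℤ) * h2 - h1
  obtain ⟨m, hm⟩ : Even ((P.genus : ℤ) ^ 2 - P.genus) := by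
    have : (P.genus : ℤ) ^ 2 - P.genus = ((P.genus : ℤ) - 1) * (P.genus - 1 + 1) := by ring
    rw [this]
    exact Int.even_mul_succ_self _
  obtain ⟨q, hq⟩ : ∃ q : ℤ, (P.bPlus : ℤ) = 2 * q + 1 := ⟨m - B, by linarith⟩
  have hq0 : 0 ≤ q := by linarith
  have hB : 2 * B = (P.genus : ℤ) ^ 2 - P.genus - 2 * q := by linarith
  obtain ⟨t, ht⟩ : ∃ t : ℤ, t = P.bMinus - 1 - P.red := ⟨_, rfl⟩
  have hA : 4 * A = 6 * (P.genus : ℤ) + 2 + 6 * q - t := by
    rw [hq] at h2
    rw [ht]
    linear_combination -h2 + 2 * hB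
  obtain ⟨h11, h12⟩ := ineq_swap h7 hq0 h0 (by linarith) (by linarith) hA hB h3 h8
  refine ⟨by exact_mod_cast genus_swap h7 hq0 h11, ?_⟩
  have : (5 : ℤ) ≤ P.bPlus := by linarith
  exact_mod_cast this

end HypPencil

end Pool.Agent.H53.HP
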